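import Pool.Agent.W601.SQ.Stm

set_option autoImplicit false
open scoped Classical Cardinal
open Filter Topology

namespace Pool.Agent.W641.SQ

open Pool.Agent.W601.SQ

noncomputable section

def W : Type := Σ n : ℕ, Finset (Fin n → Bool)

theorem exW : ∃ e : ℕ → W, Function.Surjective e := by
  have : Countable W := by unfold W; infer_instance
  have : Nonempty W := ⟨⟨0, ∅⟩⟩
  exact exists_surjective_nat W

def res (n : ℕ) (ρ : ℕ → Bool) : Fin n → Bool := fun i => ρ i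

def II (e : ℕ → W) (ρ : ℕ → Bool) : Set ℕ := {j | res (e j).1 ρ ∈ (e j).2}

theorem sep (u : Finset (ℕ → Bool)) : ∃ n : ℕ, ∀ σ ∈ u, ∀ ρ ∈ u, res n σ = res n ρ → σ = ρ := by
  have hd : ∀ p : (ℕ → Bool) × (ℕ → Bool), ∃ i : ℕ, p.1 ≠ p.2 → p.1 i ≠ p.2 i := by
    intro p
    by_cases h : p.1 = p.2
    · exact ⟨0, fun h' => absurd h h'⟩
    · obtain ⟨i, hi⟩ := Function.ne_iff.mp h
      exact ⟨i, fun _ => hi⟩
  choose d hd using hd
  refine ⟨(u ×ˢ u).sup d + 1, ?_⟩
  intro σ hσ ρ hρ h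
  by_contra hne
  have h1 := hd (σ, ρ) hne
  have h2 : d (σ, ρ) < (u ×ˢ u).sup d + 1 :=
    Nat.lt_succ_of_le (Finset.le_sup (f := d) (Finset.mk_mem_product hσ hρ))
  have h3 := congrFun h ⟨d (σ, ρ), h2⟩
  exact h1 h3

theorem indep (e : ℕ → W) (he : Function.Surjective e) (u : Finset (ℕ → Bool))
    (R : Set (ℕ → Bool)) : ∃ j : ℕ, ∀ ρ ∈ u, (j ∈ II e ρ ↔ ρ ∈ R) := by
  obtain ⟨n, hn⟩ := sep u
  obtain ⟨j, hj⟩ := he ⟨n, (u.filter (fun ρ => ρ ∈ R)).image (res n)⟩
  refine ⟨j, ?_⟩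
  intro ρ hρ
  have h0 : (j ∈ II e ρ) ↔ res n ρ ∈ (u.filter (fun ρ => ρ ∈ R)).image (res n) := by
    unfold II
    rw [Set.mem_setOf_eq, hj]
  rw [h0, Finset.mem_image]
  constructor
  · rintro ⟨σ, hσ, h⟩
    rw [Finset.mem_filter] at hσ
    have := hn σ hσ.1 ρ hρ h
    rw [← this]
    exact hσ.2
  · intro h
    exact ⟨ρ, Finset.mem_filter.mpr ⟨hρ, h⟩, rfl⟩

theorem dist_cx : dist (cx (1 / 2)) (cx 0) = 2 := by
  have h1 : ((cx (1 / 2) : Circle) : ℂ) = -1 := by
    unfold cx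
    rw [Circle.coe_exp]
    have : ((2 * Real.pi * (1 / 2) : ℝ) : ℂ) * Complex.I = Real.pi * Complex.I := by
      push_cast; ring
    rw [this, Complex.exp_pi_mul_I]
  have h2 : ((cx 0 : Circle) : ℂ) = 1 := by
    unfold cx
    rw [Circle.coe_exp]
    simp
  change dist ((cx (1 / 2) : Circle) : ℂ) ((cx 0 : Circle) : ℂ) = 2
  rw [h1, h2, Complex.dist_eq]
  norm_num

theorem beta : S_BETA := by
  intro Z _ K hK z hz hf
  choose f hfc hfd using hf
  obtain ⟨e, he⟩ := exW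
  have key : ∀ R : Set (ℕ → Bool), ∃ x : Z, ∀ ρ : ℕ → Bool,
      dist (f (II e ρ) x) (cx (if ρ ∈ R then 1 / 2 else 0)) ≤ 9 / 10 := by
    intro R
    have h := hK.inter_iInter_nonempty
      (fun ρ : ℕ → Bool => {x : Z | dist (f (II e ρ) x) (cx (if ρ ∈ R then 1 / 2 else 0)) ≤ 9 / 10})
      (fun ρ => isClosed_le ((hfc (II e ρ)).dist continuous_const) continuous_const)
      (by
        intro u
        obtain ⟨j, hj⟩ := indep e he u R
        refine ⟨z j, hz j, ?_⟩
        simp only [Set.mem_iInter, Set.mem_setOf_eq]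
        intro ρ hρ
        have h1 := hfd (II e ρ) j
        have h2 : tg (II e ρ) j = if ρ ∈ R then 1 / 2 else 0 := by
          unfold tg
          by_cases hR : ρ ∈ R
          · rw [if_pos ((hj ρ hρ).mpr hR), if_pos hR]
          · rw [if_neg (fun h => hR ((hj ρ hρ).mp h)), if_neg hR]
        rw [h2] at h1
        exact h1)
    obtain ⟨x, -, hx⟩ := h
    refine ⟨x, ?_⟩
    intro ρ
    exact Set.mem_iInter.mp hx ρ
  choose x hx using key
  have hinj : Function.Injective x := by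
    intro R R' hRR
    ext ρ
    have h1 := hx R ρ
    have h2 := hx R' ρ
    rw [← hRR] at h2
    have h3 := dist_cx
    have h4 : dist (cx (1 / 2)) (cx 0) ≤ dist (f (II e ρ) (x R)) (cx (1 / 2)) +
        dist (f (II e ρ) (x R)) (cx 0) := dist_triangle_left _ _ _
    by_cases a : ρ ∈ R
    · by_cases b : ρ ∈ R'
      · exact ⟨fun _ => b, fun _ => a⟩
      · rw [if_pos a] at h1
        rw [if_neg b] at h2
        exfalso
        linarith
    · by_cases b : ρ ∈ R'
      · rw [if_neg a] at h1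
        rw [if_pos b] at h2
        exfalso
        linarith
      · exact ⟨fun h => absurd h a, fun h => absurd h b⟩
  have hc := Cardinal.mk_le_of_injective hinj
  rw [Cardinal.mk_set] at hc
  have h2 : #(ℕ → Bool) = 𝔠 := by
    simp
  rw [h2] at hc
  exact hc

end

end Pool.Agent.W641.SQ
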